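import Mathlib

/-!
# Fastest guaranteed win in Hex: a lower bound `n + ⌊n/4⌋`

The board of size `n` is the set of cells `(i,j)` with `1 ≤ i,j ≤ n`.  The first player owns the
sides `i = 1` and `i = n`, the second player the sides `j = 1` and `j = n`.
-/

namespace Pool.Agent.Results.MP_779ef9_co.FiveQuarters

/-- A cell `(row, column)`. -/
abbrev Cell := ℤ × ℤ

/-- Adjacency of hexagonal cells: the six differences
`(0,±1)`, `(1,0)`, `(1,-1)`, `(-1,0)`, `(-1,1)`. -/
def Adj (a b : Cell) : Prop :=
  (b.1 = a.1 ∧ (b.2 = a.2 + 1 ∨ b.2 = a.2 - 1)) ∨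
  (b.1 = a.1 + 1 ∧ (b.2 = a.2 ∨ b.2 = a.2 - 1)) ∨
  (b.1 = a.1 - 1 ∧ (b.2 = a.2 ∨ b.2 = a.2 + 1))

/-- The `n × n` board. -/
noncomputable def board (n : ℕ) : Finset Cell := Finset.Icc (1 : ℤ) n ×ˢ Finset.Icc (1 : ℤ) n

/-- The first player's stones `S` contain a chain of successively adjacent cells from row `1`
to row `n`. -/
def FirstWon (n : ℕ) (S : Finset Cell) : Prop :=
  ∃ (l : List Cell) (h : l ≠ []), (∀ x ∈ l, x ∈ S) ∧ l.IsChain Adj ∧
    (l.head h).1 = 1 ∧ (l.getLast h).1 = n

/-- The second player's stones `S` contain a chain of successively adjacent cells from column `1`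
to column `n`. -/
def SecondWon (n : ℕ) (S : Finset Cell) : Prop :=
  ∃ (l : List Cell) (h : l ≠ []), (∀ x ∈ l, x ∈ S) ∧ l.IsChain Adj ∧
    (l.head h).2 = 1 ∧ (l.getLast h).2 = n

/-- `Forces n k B W`: in the position with first-player stones `B` and second-player stones `W`
and the first player to move, the first player can force completing a winning chain no later
than with her `k`-th stone from now on.  With no stone left this is impossible.  Otherwise she
places a stone on some empty cell `x`; either this completes a winning chain, or the game goes on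
(there is an empty cell for the second player) and, whatever empty cell `y` the second player
takes, he has not won by it and the first player can force a win with at most `k - 1` further
stones. -/
def Forces (n : ℕ) : ℕ → Finset Cell → Finset Cell → Prop
  | 0, _, _ => False
  | k + 1, B, W => ∃ x ∈ board n \ (B ∪ W),
      FirstWon n (insert x B) ∨
        ((board n \ (insert x B ∪ W)).Nonempty ∧
          ∀ y ∈ board n \ (insert x B ∪ W),
            ¬ SecondWon n (insert y W) ∧ Forces n k (insert x B) (insert y W))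

/-- index of the strip of four rows `4s+1, …, 4s+4` containing row `i` -/
def strip (a : Cell) : ℤ := (a.1 - 1) / 4

/-- direction in which an anchor is blocked: down in the upper half of its strip, up in the
lower half -/
def dir (a : Cell) : ℤ := if (a.1 - 1) % 4 < 2 then 1 else -1

/-- a cell on which the first player will never have a stone -/
def Closed (n : ℕ) (W : Finset Cell) (z : Cell) : Prop := z ∈ W ∨ z ∉ board n

def yc (a : Cell) : Cell := (a.1 + 2 * dir a, a.2 - dir a)
def p1 (a : Cell) : Cell := (a.1 + dir a, a.2)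
def q1 (a : Cell) : Cell := (a.1 + 2 * dir a, a.2)
def p2 (a : Cell) : Cell := (a.1 + dir a, a.2 - dir a)
def q2 (a : Cell) : Cell := (a.1 + 2 * dir a, a.2 - 2 * dir a)

lemma dir_cases (a : Cell) : (dir a = 1 ∧ (a.1 - 1) % 4 < 2) ∨ (dir a = -1 ∧ 2 ≤ (a.1 - 1) % 4) := by
  unfold dir
  split_ifs with h
  · exact Or.inl ⟨rfl, h⟩
  · exact Or.inr ⟨rfl, by omega⟩

/-- the pattern kept by the second player at an anchor -/
def Blocked (n : ℕ) (B W : Finset Cell) (a : Cell) : Prop :=
  Closed n W (yc a) ∧
  (p1 a ∈ B → Closed n W (q1 a)) ∧ (q1 a ∈ B → Closed n W (p1 a)) ∧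
  (p2 a ∈ B → Closed n W (q2 a)) ∧ (q2 a ∈ B → Closed n W (p2 a))

/-- invariant of the second player's strategy, first player to move -/
def Inv (n : ℕ) (B W : Finset Cell) : Prop :=
  (∀ b ∈ B, ¬ Closed n W b) ∧
  ∀ b ∈ B, ∃ a ∈ B, strip a = strip b ∧ Blocked n B W a

lemma Closed.mono {n : ℕ} {W : Finset Cell} {z : Cell} (y : Cell) (h : Closed n W z) :
    Closed n (insert y W) z := by
  rcases h with h | h
  · exact Or.inl (Finset.mem_insert_of_mem h)
  · exact Or.inr h

lemma strip_yc (a : Cell) : strip (yc a) = strip a := by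
  unfold strip yc
  rcases dir_cases a with ⟨h, h'⟩ | ⟨h, h'⟩ <;> rw [h] <;> simp only <;> omega

lemma strip_p1 (a : Cell) : strip (p1 a) = strip a := by
  unfold strip p1
  rcases dir_cases a with ⟨h, h'⟩ | ⟨h, h'⟩ <;> rw [h] <;> simp only <;> omega

lemma strip_p2 (a : Cell) : strip (p2 a) = strip a := by
  unfold strip p2
  rcases dir_cases a with ⟨h, h'⟩ | ⟨h, h'⟩ <;> rw [h] <;> simp only <;> omega

lemma strip_q1 (a : Cell) : strip (q1 a) = strip a := by
  unfold strip q1
  rcases dir_cases a with ⟨h, h'⟩ | ⟨h, h'⟩ <;> rw [h] <;> simp only <;> omega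

lemma strip_q2 (a : Cell) : strip (q2 a) = strip a := by
  unfold strip q2
  rcases dir_cases a with ⟨h, h'⟩ | ⟨h, h'⟩ <;> rw [h] <;> simp only <;> omega

/-- `Blocked` for an anchor in another strip is not affected by a move. -/
lemma Blocked.other {n : ℕ} {B W : Finset Cell} {a : Cell} (x y : Cell)
    (h : Blocked n B W a) (hx : strip x ≠ strip a) :
    Blocked n (insert x B) (insert y W) a := by
  obtain ⟨h0, h1, h2, h3, h4⟩ := h
  have key : ∀ c : Cell, strip c = strip a → c ∈ insert x B → c ∈ B := by
    intro c hc hc'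
    rcases Finset.mem_insert.1 hc' with rfl | h
    · exact absurd hc hx
    · exact h
  exact ⟨h0.mono y, fun h => (h1 (key _ (strip_p1 a) h)).mono y,
    fun h => (h2 (key _ (strip_q1 a) h)).mono y,
    fun h => (h3 (key _ (strip_p2 a) h)).mono y,
    fun h => (h4 (key _ (strip_q2 a) h)).mono y⟩

/-- The answer of the second player: there is a target cell which, if not available, is closed. -/
lemma target {n : ℕ} {B W : Finset Cell} (hI : Inv n B W) {x : Cell}
    (hx : ¬ Closed n W x) :
    (∀ y : Cell, ∃ a ∈ insert x B, strip a = strip x ∧ Blocked n (insert x B) (insert y W) a) ∨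
    ∃ z : Cell, z ∉ insert x B ∧
      ∀ y : Cell, Closed n (insert y W) z →
        ∃ a ∈ insert x B, strip a = strip x ∧ Blocked n (insert x B) (insert y W) a := by
  by_cases hs : ∃ b ∈ B, strip b = strip x
  · obtain ⟨b, hb, hbs⟩ := hs
    obtain ⟨a, ha, has, hB⟩ := hI.2 b hb
    obtain ⟨h0, h1, h2, h3, h4⟩ := hB
    have hne1 : p1 a ≠ q1 a := by
      intro h
      have := congrArg Prod.fst h
      unfold p1 q1 at this
      rcases dir_cases a with ⟨h, h'⟩ | ⟨h, h'⟩ <;> rw [h] at this <;> simp only at this <;> omega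
    have hne2 : p2 a ≠ q2 a := by
      intro h
      have := congrArg Prod.fst h
      unfold p2 q2 at this
      rcases dir_cases a with ⟨h, h'⟩ | ⟨h, h'⟩ <;> rw [h] at this <;> simp only at this <;> omega
    have hne3 : p1 a ≠ p2 a := by
      intro h
      have := congrArg Prod.snd h
      unfold p1 p2 at this
      rcases dir_cases a with ⟨h, h'⟩ | ⟨h, h'⟩ <;> rw [h] at this <;> simp only at this <;> omega
    have hne4 : q1 a ≠ q2 a := by
      intro h
      have := congrArg Prod.snd h
      unfold q1 q2 at this
      rcases dir_cases a with ⟨h, h'⟩ | ⟨h, h'⟩ <;> rw [h] at this <;> simp only at this <;> omega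
    have hne5 : p1 a ≠ q2 a := by
      intro h
      have := congrArg Prod.fst h
      unfold p1 q2 at this
      rcases dir_cases a with ⟨h, h'⟩ | ⟨h, h'⟩ <;> rw [h] at this <;> simp only at this <;> omega
    have hne6 : p2 a ≠ q1 a := by
      intro h
      have := congrArg Prod.fst h
      unfold p2 q1 at this
      rcases dir_cases a with ⟨h, h'⟩ | ⟨h, h'⟩ <;> rw [h] at this <;> simp only at this <;> omega
    have hsame : strip a = strip x := has.trans hbs
    by_cases e1 : x = p1 a
    · refine Or.inr ⟨q1 a, ?_, ?_⟩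
      · intro h
        rcases Finset.mem_insert.1 h with h | h
        · exact hne1 (e1 ▸ h.symm)
        · exact hx (e1 ▸ h2 h)
      · intro y hz
        refine ⟨a, Finset.mem_insert_of_mem ha, hsame, h0.mono y, fun _ => hz, ?_, ?_, ?_⟩
        · intro h
          rcases Finset.mem_insert.1 h with h | h
          · exact absurd (e1 ▸ h.symm) hne1
          · exact absurd (e1 ▸ h2 h) hx
        · intro h
          rcases Finset.mem_insert.1 h with h | h
          · exact absurd (e1 ▸ h.symm) hne3
          · exact (h3 h).mono y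
        · intro h
          rcases Finset.mem_insert.1 h with h | h
          · exact absurd (e1 ▸ h.symm) hne5
          · exact (h4 h).mono y
    by_cases e2 : x = q1 a
    · refine Or.inr ⟨p1 a, ?_, ?_⟩
      · intro h
        rcases Finset.mem_insert.1 h with h | h
        · exact hne1 (e2 ▸ h)
        · exact hx (e2 ▸ h1 h)
      · intro y hz
        refine ⟨a, Finset.mem_insert_of_mem ha, hsame, h0.mono y, ?_, fun _ => hz, ?_, ?_⟩
        · intro h
          rcases Finset.mem_insert.1 h with h | h
          · exact absurd (e2 ▸ h) hne1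
          · exact absurd (e2 ▸ h1 h) hx
        · intro h
          rcases Finset.mem_insert.1 h with h | h
          · exact absurd (e2 ▸ h) hne6
          · exact (h3 h).mono y
        · intro h
          rcases Finset.mem_insert.1 h with h | h
          · exact absurd (e2 ▸ h.symm) hne4
          · exact (h4 h).mono y
    by_cases e3 : x = p2 a
    · refine Or.inr ⟨q2 a, ?_, ?_⟩
      · intro h
        rcases Finset.mem_insert.1 h with h | h
        · exact hne2 (e3 ▸ h.symm)
        · exact hx (e3 ▸ h4 h)
      · intro y hz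
        refine ⟨a, Finset.mem_insert_of_mem ha, hsame, h0.mono y, ?_, ?_, fun _ => hz, ?_⟩
        · intro h
          rcases Finset.mem_insert.1 h with h | h
          · exact absurd (e3 ▸ h) hne3
          · exact (h1 h).mono y
        · intro h
          rcases Finset.mem_insert.1 h with h | h
          · exact absurd (e3 ▸ h.symm) hne6
          · exact (h2 h).mono y
        · intro h
          rcases Finset.mem_insert.1 h with h | h
          · exact absurd (e3 ▸ h.symm) hne2
          · exact absurd (e3 ▸ h4 h) hx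
    by_cases e4 : x = q2 a
    · refine Or.inr ⟨p2 a, ?_, ?_⟩
      · intro h
        rcases Finset.mem_insert.1 h with h | h
        · exact hne2 (e4 ▸ h)
        · exact hx (e4 ▸ h3 h)
      · intro y hz
        refine ⟨a, Finset.mem_insert_of_mem ha, hsame, h0.mono y, ?_, ?_, ?_, fun _ => hz⟩
        · intro h
          rcases Finset.mem_insert.1 h with h | h
          · exact absurd (e4 ▸ h) hne5
          · exact (h1 h).mono y
        · intro h
          rcases Finset.mem_insert.1 h with h | h
          · exact absurd (e4 ▸ h) hne4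
          · exact (h2 h).mono y
        · intro h
          rcases Finset.mem_insert.1 h with h | h
          · exact absurd (e4 ▸ h) hne2
          · exact absurd (e4 ▸ h3 h) hx
    · refine Or.inl fun y => ⟨a, Finset.mem_insert_of_mem ha, hsame, h0.mono y, ?_, ?_, ?_, ?_⟩
      · intro h
        rcases Finset.mem_insert.1 h with h | h
        · exact absurd h.symm e1
        · exact (h1 h).mono y
      · intro h
        rcases Finset.mem_insert.1 h with h | h
        · exact absurd h.symm e2
        · exact (h2 h).mono y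
      · intro h
        rcases Finset.mem_insert.1 h with h | h
        · exact absurd h.symm e3
        · exact (h3 h).mono y
      · intro h
        rcases Finset.mem_insert.1 h with h | h
        · exact absurd h.symm e4
        · exact (h4 h).mono y
  · push Not at hs
    have key : ∀ c : Cell, c ≠ x → strip c = strip x → c ∉ insert x B := by
      intro c hc1 hc2 h
      rcases Finset.mem_insert.1 h with h | h
      · exact hc1 h
      · exact hs c h hc2
    have hy : yc x ≠ x := by
      intro h
      have := congrArg Prod.fst h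
      unfold yc at this
      rcases dir_cases x with ⟨h, h'⟩ | ⟨h, h'⟩ <;> rw [h] at this <;> simp only at this <;> omega
    have hp1 : p1 x ≠ x := by
      intro h
      have := congrArg Prod.fst h
      unfold p1 at this
      rcases dir_cases x with ⟨h, h'⟩ | ⟨h, h'⟩ <;> rw [h] at this <;> simp only at this <;> omega
    have hp2 : p2 x ≠ x := by
      intro h
      have := congrArg Prod.fst h
      unfold p2 at this
      rcases dir_cases x with ⟨h, h'⟩ | ⟨h, h'⟩ <;> rw [h] at this <;> simp only at this <;> omega
    have hq1 : q1 x ≠ x := by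
      intro h
      have := congrArg Prod.fst h
      unfold q1 at this
      rcases dir_cases x with ⟨h, h'⟩ | ⟨h, h'⟩ <;> rw [h] at this <;> simp only at this <;> omega
    have hq2 : q2 x ≠ x := by
      intro h
      have := congrArg Prod.fst h
      unfold q2 at this
      rcases dir_cases x with ⟨h, h'⟩ | ⟨h, h'⟩ <;> rw [h] at this <;> simp only at this <;> omega
    refine Or.inr ⟨yc x, key _ hy (strip_yc x), fun y hz => ⟨x, Finset.mem_insert_self _ _, rfl, hz, ?_, ?_, ?_, ?_⟩⟩
    · exact fun h => absurd h (key _ hp1 (strip_p1 x))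
    · exact fun h => absurd h (key _ hq1 (strip_q1 x))
    · exact fun h => absurd h (key _ hp2 (strip_p2 x))
    · exact fun h => absurd h (key _ hq2 (strip_q2 x))

/-- The second player can keep the invariant. -/
lemma Inv.step {n : ℕ} {B W : Finset Cell} (hI : Inv n B W) {x : Cell}
    (hx : x ∈ board n \ (B ∪ W)) (hne : (board n \ (insert x B ∪ W)).Nonempty) :
    ∃ y ∈ board n \ (insert x B ∪ W), Inv n (insert x B) (insert y W) := by
  have hxo : ¬ Closed n W x := by
    rw [Finset.mem_sdiff, Finset.mem_union] at hx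
    rintro (h | h)
    · exact hx.2 (Or.inr h)
    · exact h hx.1
  have main : ∀ y ∈ board n \ (insert x B ∪ W),
      (∃ a ∈ insert x B, strip a = strip x ∧ Blocked n (insert x B) (insert y W) a) →
      Inv n (insert x B) (insert y W) := by
    intro y hy hex
    rw [Finset.mem_sdiff, Finset.mem_union] at hy
    refine ⟨?_, ?_⟩
    · intro b hb hc
      have hbo : ¬ Closed n W b := by
        rcases Finset.mem_insert.1 hb with h | h
        · rw [h]; exact hxo
        · exact hI.1 b h
      rcases hc with h | h
      · rcases Finset.mem_insert.1 h with h | h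
        · exact hy.2 (Or.inl (h ▸ hb))
        · exact hbo (Or.inl h)
      · exact hbo (Or.inr h)
    · intro b hb
      by_cases hbx : strip b = strip x
      · obtain ⟨a, ha, hax, hB⟩ := hex
        exact ⟨a, ha, hax.trans hbx.symm, hB⟩
      · rcases Finset.mem_insert.1 hb with h | h
        · exact absurd (by rw [h]) hbx
        · obtain ⟨a, ha, hab, hB⟩ := hI.2 b h
          exact ⟨a, Finset.mem_insert_of_mem ha, hab,
            hB.other x y (fun h' => hbx (by rw [← hab, h']))⟩
  rcases target hI hxo with h | ⟨z, hz, h⟩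
  · obtain ⟨y, hy⟩ := hne
    exact ⟨y, hy, main y hy (h y)⟩
  · by_cases hzb : z ∈ board n \ (insert x B ∪ W)
    · exact ⟨z, hzb, main z hzb (h z (Or.inl (Finset.mem_insert_self _ _)))⟩
    · obtain ⟨y, hy⟩ := hne
      refine ⟨y, hy, main y hy (h y ?_)⟩
      rw [Finset.mem_sdiff, Finset.mem_union] at hzb
      by_cases hz1 : z ∈ board n
      · left
        have : z ∈ W := by
          by_contra hW
          exact hzb ⟨hz1, fun h' => h'.elim hz hW⟩
        exact Finset.mem_insert_of_mem this
      · exact Or.inr hz1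

/-- No two monotone steps from an anchor in its blocked direction. -/
lemma Blocked.no_steps {n : ℕ} {B W : Finset Cell} {a x u v : Cell} (h : Blocked n B W a)
    (hB : ∀ b ∈ insert x B, ¬ Closed n W b)
    (hu : u ∈ insert x B) (hv : v ∈ insert x B) (hu1 : u.1 = a.1 + dir a)
    (hv1 : v.1 = a.1 + 2 * dir a) (hau : Adj a u) (huv : Adj u v) : False := by
  obtain ⟨h0, h1, h2, h3, h4⟩ := h
  have hune : u ≠ v := by
    intro h
    have := congrArg Prod.fst h
    rcases dir_cases a with ⟨h, h'⟩ | ⟨h, h'⟩ <;> rw [h] at hu1 hv1 <;> omega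
  have hor : u ∈ B ∨ v ∈ B := by
    rcases Finset.mem_insert.1 hu with h | h
    · rcases Finset.mem_insert.1 hv with h' | h'
      · exact absurd (h.trans h'.symm) hune
      · exact Or.inr h'
    · exact Or.inl h
  have cases1 : (u = p1 a ∨ u = p2 a) := by
    unfold p1 p2
    unfold Adj at hau
    rcases dir_cases a with ⟨h, h'⟩ | ⟨h, h'⟩ <;> rw [h] at hu1 ⊢ <;> simp only [Prod.ext_iff] <;> omega
  have cases2 : (u = p1 a → v = q1 a ∨ v = yc a) := by
    intro hu
    unfold q1 yc
    unfold p1 at hu
    unfold Adj at huv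
    rcases dir_cases a with ⟨h, h'⟩ | ⟨h, h'⟩ <;> rw [h] at hu1 hv1 hu ⊢ <;>
      simp only [Prod.ext_iff] at hu ⊢ <;> omega
  have cases3 : (u = p2 a → v = q2 a ∨ v = yc a) := by
    intro hu
    unfold q2 yc
    unfold p2 at hu
    unfold Adj at huv
    rcases dir_cases a with ⟨h, h'⟩ | ⟨h, h'⟩ <;> rw [h] at hu1 hv1 hu ⊢ <;>
      simp only [Prod.ext_iff] at hu ⊢ <;> omega
  rcases cases1 with hc | hc
  · rcases cases2 hc with hd | hd
    · rcases hor with h | h
      · exact hB v hv (hd ▸ h1 (hc ▸ h))
      · exact hB u hu (hc ▸ h2 (hd ▸ h))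
    · exact hB v hv (hd ▸ h0)
  · rcases cases3 hc with hd | hd
    · rcases hor with h | h
      · exact hB v hv (hd ▸ h3 (hc ▸ h))
      · exact hB u hu (hc ▸ h4 (hd ▸ h))
    · exact hB v hv (hd ▸ h0)

/-- A chain from row `≤ i` to row `≥ i+1` has two consecutive cells in rows `i` and `i+1`. -/
lemma crossing (l : List Cell) (h : l ≠ []) (hc : l.IsChain Adj) (i : ℤ)
    (h1 : (l.head h).1 ≤ i) (h2 : i + 1 ≤ (l.getLast h).1) :
    ∃ u ∈ l, ∃ v ∈ l, u.1 = i ∧ v.1 = i + 1 ∧ Adj u v := by
  induction l with
  | nil => exact absurd rfl h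
  | cons a t ih =>
    cases t with
    | nil =>
      simp only [List.head_cons, List.getLast_singleton] at h1 h2
      omega
    | cons b t =>
      rw [List.isChain_cons_cons] at hc
      simp only [List.head_cons] at h1
      rw [List.getLast_cons (by simp)] at h2
      by_cases hb : b.1 ≤ i
      · obtain ⟨u, hu, v, hv, h3⟩ := ih (by simp) hc.2 (by simpa using hb) h2
        exact ⟨u, List.mem_cons_of_mem _ hu, v, List.mem_cons_of_mem _ hv, h3⟩
      · refine ⟨a, by simp, b, by simp, ?_, ?_, hc.1⟩ <;>
          (have := hc.1; unfold Adj at this; omega)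

/-- A full strip of four rows contains at least five first-player stones when she has won. -/
lemma five_in_strip {n : ℕ} {B W : Finset Cell} (hI : Inv n B W) {x : Cell}
    (hxo : ¬ Closed n W x) {l : List Cell} (hl : l ≠ []) (hlS : ∀ c ∈ l, c ∈ insert x B)
    (hc : l.IsChain Adj) (h1 : (l.head hl).1 = 1) (h2 : (l.getLast hl).1 = n)
    (s : ℕ) (hs : 4 * s + 4 ≤ n) :
    5 ≤ ((insert x B).filter (fun c => (strip c).toNat = s)).card := by
  classical
  have hopen : ∀ b ∈ insert x B, ¬ Closed n W b := by
    intro b hb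
    rcases Finset.mem_insert.1 hb with h | h
    · rw [h]; exact hxo
    · exact hI.1 b h
  have hrow : ∀ b ∈ insert x B, 1 ≤ b.1 ∧ b.1 ≤ n := by
    intro b hb
    have := hopen b hb
    have hb' : b ∈ board n := by
      by_contra h
      exact this (Or.inr h)
    unfold board at hb'
    rw [Finset.mem_product, Finset.mem_Icc] at hb'
    exact hb'.1
  set F := (insert x B).filter (fun c => (strip c).toNat = s) with hF
  have memF : ∀ c ∈ insert x B, (4 * s + 1 ≤ c.1 ∧ c.1 ≤ 4 * s + 4) → c ∈ F := by
    intro c hcS hr
    rw [hF, Finset.mem_filter]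
    refine ⟨hcS, ?_⟩
    unfold strip
    omega
  have memF' : ∀ c ∈ F, c ∈ insert x B ∧ 4 * s + 1 ≤ c.1 ∧ c.1 ≤ 4 * s + 4 := by
    intro c hcF
    rw [hF, Finset.mem_filter] at hcF
    obtain ⟨h3, h4⟩ := hcF
    have := hrow c h3
    unfold strip at h4
    refine ⟨h3, ?_, ?_⟩ <;> omega
  by_contra hlt
  push Not at hlt
  obtain ⟨b1, hb1, b2, hb2, r1, r2, A12⟩ := crossing l hl hc (4 * s + 1) (by omega) (by omega)
  obtain ⟨b2', hb2', b3, hb3, r2', r3, A23⟩ := crossing l hl hc (4 * s + 2) (by omega) (by omega)
  obtain ⟨b3', hb3', b4, hb4, r3', r4, A34⟩ := crossing l hl hc (4 * s + 3) (by omega) (by omega)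
  have f1 := memF b1 (hlS _ hb1) (by omega)
  have f2 := memF b2 (hlS _ hb2) (by omega)
  have f2' := memF b2' (hlS _ hb2') (by omega)
  have f3 := memF b3 (hlS _ hb3) (by omega)
  have f3' := memF b3' (hlS _ hb3') (by omega)
  have f4 := memF b4 (hlS _ hb4) (by omega)
  have hinj : Set.InjOn Prod.fst (F : Set Cell) := by
    apply Finset.injOn_of_card_image_eq
    apply le_antisymm Finset.card_image_le
    have hsub : ({4 * (s : ℤ) + 1, 4 * (s : ℤ) + 2, 4 * (s : ℤ) + 3, 4 * (s : ℤ) + 4} : Finset ℤ) ⊆
        F.image Prod.fst := by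
      intro r hr
      simp only [Finset.mem_insert, Finset.mem_singleton] at hr
      rcases hr with h | h | h | h
      · exact Finset.mem_image.2 ⟨b1, f1, by omega⟩
      · exact Finset.mem_image.2 ⟨b2, f2, by omega⟩
      · exact Finset.mem_image.2 ⟨b3, f3, by omega⟩
      · exact Finset.mem_image.2 ⟨b4, f4, by omega⟩
    have h4c : ({4 * (s : ℤ) + 1, 4 * (s : ℤ) + 2, 4 * (s : ℤ) + 3, 4 * (s : ℤ) + 4} :
        Finset ℤ).card = 4 := by
      rw [Finset.card_insert_of_notMem, Finset.card_insert_of_notMem,
        Finset.card_insert_of_notMem, Finset.card_singleton]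
      all_goals (simp only [Finset.mem_insert, Finset.mem_singleton]; omega)
    have := Finset.card_le_card hsub
    omega
  have e2 : b2' = b2 := hinj f2' f2 (by rw [r2, r2']; ring)
  have e3 : b3' = b3 := hinj f3' f3 (by rw [r3, r3']; ring)
  subst e2 e3
  -- a stone of `B` in the strip
  have hex : ∃ b ∈ B, strip b = s := by
    have hne : b1 ≠ b2' := by
      intro h
      rw [h] at r1
      omega
    have : b1 ≠ x ∨ b2' ≠ x := by
      by_contra hcon
      push Not at hcon
      exact hne (hcon.1.trans hcon.2.symm)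
    rcases this with h | h
    · have hb := Finset.mem_insert.1 (hlS _ hb1)
      refine ⟨b1, hb.resolve_left h, ?_⟩
      unfold strip
      omega
    · have hb := Finset.mem_insert.1 (hlS _ hb2)
      refine ⟨b2', hb.resolve_left h, ?_⟩
      unfold strip
      omega
  obtain ⟨b, hb, hbs⟩ := hex
  obtain ⟨a, ha, has, hB⟩ := hI.2 b hb
  rw [hbs] at has
  have haS : a ∈ insert x B := Finset.mem_insert_of_mem ha
  have har : 4 * (s : ℤ) + 1 ≤ a.1 ∧ a.1 ≤ 4 * s + 4 := by
    unfold strip at has
    omega
  have haF := memF a haS har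
  have hsym : ∀ {c d : Cell}, Adj c d → Adj d c := by
    intro c d h
    unfold Adj at h ⊢
    omega
  have hcases : a.1 = 4 * (s : ℤ) + 1 ∨ a.1 = 4 * s + 2 ∨ a.1 = 4 * s + 3 ∨ a.1 = 4 * s + 4 := by
    omega
  rcases hcases with h | h | h | h
  · have hab : a = b1 := hinj haF f1 (by rw [h, r1])
    have hd : dir a = 1 := by
      rcases dir_cases a with ⟨h, h'⟩ | ⟨h, h'⟩ <;> omega
    exact hB.no_steps hopen (hlS _ hb2) (hlS _ hb3) (by omega) (by omega) (hab ▸ A12) A23
  · have hab : a = b2' := hinj haF f2 (by rw [h, r2]; ring)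
    have hd : dir a = 1 := by
      rcases dir_cases a with ⟨h, h'⟩ | ⟨h, h'⟩ <;> omega
    exact hB.no_steps hopen (hlS _ hb3) (hlS _ hb4) (by omega) (by omega) (hab ▸ A23) A34
  · have hab : a = b3' := hinj haF f3 (by rw [h, r3]; ring)
    have hd : dir a = -1 := by
      rcases dir_cases a with ⟨h, h'⟩ | ⟨h, h'⟩ <;> omega
    exact hB.no_steps hopen (hlS _ hb2) (hlS _ hb1) (by omega) (by omega) (hab ▸ hsym A23)
      (hsym A12)
  · have hab : a = b4 := hinj haF f4 (by rw [h, r4]; ring)
    have hd : dir a = -1 := by
      rcases dir_cases a with ⟨h, h'⟩ | ⟨h, h'⟩ <;> omega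
    exact hB.no_steps hopen (hlS _ hb3) (hlS _ hb2) (by omega) (by omega) (hab ▸ hsym A34)
      (hsym A23)

/-- If the first player completes a winning chain against the strategy, she has many stones. -/
lemma many_stones {n : ℕ} {B W : Finset Cell} (hI : Inv n B W) {x : Cell}
    (hxo : ¬ Closed n W x) (hw : FirstWon n (insert x B)) :
    n + n / 4 ≤ (insert x B).card := by
  classical
  obtain ⟨l, hl, hlS, hc, h1, h2⟩ := hw
  have hopen : ∀ b ∈ insert x B, ¬ Closed n W b := by
    intro b hb
    rcases Finset.mem_insert.1 hb with h | h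
    · rw [h]; exact hxo
    · exact hI.1 b h
  have hrow : ∀ b ∈ insert x B, 1 ≤ b.1 ∧ b.1 ≤ n := by
    intro b hb
    have := hopen b hb
    have hb' : b ∈ board n := by
      by_contra h
      exact this (Or.inr h)
    unfold board at hb'
    rw [Finset.mem_product, Finset.mem_Icc] at hb'
    exact hb'.1
  have hcard := Finset.card_eq_sum_card_fiberwise (s := insert x B)
    (f := fun c : Cell => (strip c).toNat) (t := Finset.range (n / 4 + 1)) (by
      intro c hcS
      have := hrow c hcS
      simp only [Finset.coe_range, Set.mem_Iio]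
      unfold strip
      omega)
  rw [Finset.sum_range_succ] at hcard
  have hA : 5 * (n / 4) ≤ ∑ s ∈ Finset.range (n / 4),
      ((insert x B).filter (fun c => (strip c).toNat = s)).card := by
    calc 5 * (n / 4) = ∑ _s ∈ Finset.range (n / 4), 5 := by simp [mul_comm]
      _ ≤ _ := Finset.sum_le_sum (fun s hs => by
        have := Finset.mem_range.1 hs
        exact five_in_strip hI hxo hl hlS hc h1 h2 s (by omega))
  have hrows : ∀ i : ℤ, 1 ≤ i → i ≤ n → ∃ c ∈ insert x B, c.1 = i := by
    intro i hi1 hi2
    by_cases hin : i = n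
    · exact ⟨l.getLast hl, hlS _ (List.getLast_mem hl), by rw [h2, hin]⟩
    · obtain ⟨u, hu, v, hv, hu1, -, -⟩ := crossing l hl hc i (by omega) (by omega)
      exact ⟨u, hlS _ hu, hu1⟩
  have hLast : n % 4 ≤ ((insert x B).filter (fun c => (strip c).toNat = n / 4)).card := by
    have hsub : Finset.Icc (4 * ((n / 4 : ℕ) : ℤ) + 1) n ⊆
        ((insert x B).filter (fun c => (strip c).toNat = n / 4)).image Prod.fst := by
      intro r hr
      rw [Finset.mem_Icc] at hr
      obtain ⟨c, hcS, hcr⟩ := hrows r (by omega) hr.2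
      refine Finset.mem_image.2 ⟨c, ?_, hcr⟩
      rw [Finset.mem_filter]
      refine ⟨hcS, ?_⟩
      unfold strip
      omega
    have h3 := Finset.card_le_card hsub
    rw [Int.card_Icc] at h3
    have h4 := Finset.card_image_le (s := (insert x B).filter
      (fun c => (strip c).toNat = n / 4)) (f := Prod.fst)
    omega
  omega

/-- The second player's strategy. -/
lemma not_forces (n : ℕ) : ∀ (k : ℕ) (B W : Finset Cell), Inv n B W → B.card + k < n + n / 4 →
    ¬ Forces n k B W := by
  intro k
  induction k with
  | zero => intro B W _ _ h; exact h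
  | succ k ih =>
    intro B W hI hcard hF
    obtain ⟨x, hx, h⟩ := hF
    have hxB : x ∉ B := by
      intro h'
      exact (Finset.mem_sdiff.1 hx).2 (Finset.mem_union_left _ h')
    have hxo : ¬ Closed n W x := by
      rw [Finset.mem_sdiff, Finset.mem_union] at hx
      rintro (h' | h')
      · exact hx.2 (Or.inr h')
      · exact h' hx.1
    have hci : (insert x B).card = B.card + 1 := Finset.card_insert_of_notMem hxB
    rcases h with h | ⟨hne, h⟩
    · have := many_stones hI hxo h
      omega
    · obtain ⟨y, hy, hI'⟩ := hI.step hx hne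
      exact ih _ _ hI' (by omega) (h y hy).2

/-- **Result.**  On the `n × n` Hex board (`n ≥ 1`) the first player cannot force a win within
fewer than `n + ⌊n/4⌋` of her own moves: if she can force a win no later than with her `k`-th
move, then `k ≥ n + ⌊n/4⌋`. -/
theorem result (n : ℕ) (_hn : 1 ≤ n) (k : ℕ) (h : Forces n k ∅ ∅) : n + n / 4 ≤ k := by
  by_contra hlt
  push Not at hlt
  refine not_forces n k ∅ ∅ ⟨?_, ?_⟩ ?_ h
  · intro b hb
    exact absurd hb (Finset.notMem_empty b)
  · intro b hb
    exact absurd hb (Finset.notMem_empty b)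
  · simpa using hlt

end Pool.Agent.Results.MP_779ef9_co.FiveQuarters
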